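import Mathlib

/-!
Orthonormal bases of `L²(ℝ)` made of exponentials on the intervals of a partition.
-/

set_option autoImplicit false

open MeasureTheory Set

namespace Pool.Agent.V11212.RW

noncomputable section

/-- normalised exponential of frequency `k / L` on `(p, p + L]` -/
def ex (p L : ℝ) (k : ℤ) : ℝ → ℂ :=
  (Ioc p (p + L)).indicator
    (fun x => ((Real.sqrt L)⁻¹ : ℝ) * Complex.exp (((-(2 * Real.pi * k * x / L) : ℝ) : ℂ) * Complex.I))

theorem ex_norm_le (p L : ℝ) (k : ℤ) (x : ℝ) : ‖ex p L k x‖ ≤ |(Real.sqrt L)⁻¹| := by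
  unfold ex
  by_cases hx : x ∈ Ioc p (p + L)
  · rw [indicator_of_mem hx, norm_mul, Complex.norm_exp_ofReal_mul_I, mul_one,
      Complex.norm_real, Real.norm_eq_abs]
  · rw [indicator_of_notMem hx, norm_zero]
    exact abs_nonneg _

theorem ex_meas (p L : ℝ) (k : ℤ) : Measurable (ex p L k) := by
  unfold ex
  apply Measurable.indicator _ measurableSet_Ioc
  fun_prop

theorem ex_eq_ind (p L : ℝ) (k : ℤ) :
    ex p L k = (Ioc p (p + L)).indicator (ex p L k) := by
  unfold ex
  rw [indicator_indicator, inter_self]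

theorem ex_memLp (p L : ℝ) (k : ℤ) (q : ENNReal) : MemLp (ex p L k) q := by
  rw [ex_eq_ind, memLp_indicator_iff_restrict measurableSet_Ioc]
  have : IsFiniteMeasure ((volume : Measure ℝ).restrict (Ioc p (p + L))) := by
    refine ⟨?_⟩
    rw [Measure.restrict_apply_univ, Real.volume_Ioc]
    exact ENNReal.ofReal_lt_top
  exact MemLp.of_bound (ex_meas p L k).aestronglyMeasurable _
    (Filter.Eventually.of_forall (ex_norm_le p L k))

/-- the same as an element of `L²` -/
def exL (p L : ℝ) (k : ℤ) : Lp ℂ 2 (volume : Measure ℝ) := (ex_memLp p L k 2).toLp _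

theorem exL_ae (p L : ℝ) (k : ℤ) : (exL p L k : ℝ → ℂ) =ᵐ[volume] ex p L k :=
  (ex_memLp p L k 2).coeFn_toLp

theorem inner_exL (p L : ℝ) (k : ℤ) (F : Lp ℂ 2 (volume : Measure ℝ)) :
    inner ℂ (exL p L k) F = ∫ x in Ioc p (p + L), ((Real.sqrt L)⁻¹ : ℝ) *
      (Complex.exp (((2 * Real.pi * k * x / L : ℝ) : ℂ) * Complex.I) * F x) := by
  rw [L2.inner_def, ← integral_indicator measurableSet_Ioc]
  apply integral_congr_ae
  filter_upwards [exL_ae p L k] with x hx
  rw [hx]
  unfold ex
  by_cases hx' : x ∈ Ioc p (p + L)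
  · rw [indicator_of_mem hx', indicator_of_mem hx']
    rw [RCLike.inner_apply', map_mul, Complex.conj_ofReal, ← Complex.exp_conj, map_mul,
      Complex.conj_ofReal, Complex.conj_I, mul_assoc]
    congr 3
    push_cast
    ring
  · rw [indicator_of_notMem hx', indicator_of_notMem hx', inner_zero_left]

theorem inner_exL_coeff {p L : ℝ} (hL : 0 < L) (k : ℤ) (F : Lp ℂ 2 (volume : Measure ℝ)) :
    inner ℂ (exL p L k) F =
      ((Real.sqrt L) : ℝ) * fourierCoeffOn (a := p) (b := p + L) (by linarith) (F : ℝ → ℂ) (-k) := by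
  rw [inner_exL, fourierCoeffOn_eq_integral, intervalIntegral.integral_of_le (by linarith),
    integral_const_mul]
  have h1 : (p + L - p) = L := by ring
  have h2 : ∀ x : ℝ, fourier (- -k) (x : AddCircle (p + L - p)) =
      Complex.exp (((2 * Real.pi * k * x / L : ℝ) : ℂ) * Complex.I) := by
    intro x
    rw [fourier_coe_apply]
    congr 1
    rw [h1]
    push_cast
    ring
  simp only [h2]
  rw [h1]
  simp only [smul_eq_mul, Complex.real_smul]
  rw [← mul_assoc]
  congr 1
  have h3 : Real.sqrt L * Real.sqrt L = L := Real.mul_self_sqrt hL.le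
  have h4 : Real.sqrt L ≠ 0 := (Real.sqrt_pos.2 hL).ne'
  rw [← Complex.ofReal_mul]
  congr 1
  rw [one_div]
  nth_rewrite 3 [← h3]
  field_simp

/-- completeness on one interval -/
theorem ae_zero_of_inner {p L : ℝ} (hL : 0 < L) (F : Lp ℂ 2 (volume : Measure ℝ))
    (h : ∀ k, inner ℂ (exL p L k) F = 0) :
    ∀ᵐ x : ℝ, x ∈ Ioc p (p + L) → F x = 0 := by
  have hab : p < p + L := by linarith
  have h1 : ∀ n, fourierCoeffOn hab (F : ℝ → ℂ) n = 0 := by
    intro n
    have h2 := h (-n)
    rw [inner_exL_coeff hL, neg_neg] at h2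
    rcases mul_eq_zero.1 h2 with h3 | h3
    · exfalso
      have : Real.sqrt L = 0 := by exact_mod_cast h3
      exact (Real.sqrt_pos.2 hL).ne' this
    · exact h3
  have hF : MemLp (F : ℝ → ℂ) 2 (volume.restrict (Ioc p (p + L))) := (Lp.memLp F).restrict _
  have h2 := hasSum_sq_fourierCoeffOn hab hF
  simp only [h1, norm_zero, ne_eq, OfNat.ofNat_ne_zero, not_false_eq_true, zero_pow] at h2
  have h3 := h2.unique hasSum_zero
  rw [smul_eq_mul, mul_eq_zero, intervalIntegral.integral_of_le hab.le] at h3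
  rcases h3 with h3 | h3
  · exfalso
    have : (p + L - p)⁻¹ ≠ 0 := by
      rw [add_sub_cancel_left]
      exact inv_ne_zero hL.ne'
    exact this h3
  · rw [setIntegral_eq_zero_iff_of_nonneg_ae] at h3
    · rw [← ae_restrict_iff' measurableSet_Ioc]
      filter_upwards [h3] with x hx
      simpa using hx
    · exact Filter.Eventually.of_forall fun x => by positivity
    · exact (memLp_two_iff_integrable_sq_norm hF.1).1 hF

theorem inner_exL_same {p L : ℝ} (hL : 0 < L) (k l : ℤ) :
    inner ℂ (exL p L k) (exL p L l) = if k = l then (1 : ℂ) else 0 := by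
  rw [inner_exL]
  have h3 : Real.sqrt L * Real.sqrt L = L := Real.mul_self_sqrt hL.le
  have h4 : Real.sqrt L ≠ 0 := (Real.sqrt_pos.2 hL).ne'
  have h1 : ∫ x in Ioc p (p + L), ((Real.sqrt L)⁻¹ : ℝ) *
      (Complex.exp (((2 * Real.pi * k * x / L : ℝ) : ℂ) * Complex.I) * exL p L l x) =
      ∫ x in Ioc p (p + L), ((L⁻¹ : ℝ) : ℂ) *
        Complex.exp ((((2 * Real.pi * (k - l) / L : ℝ) : ℂ) * Complex.I) * x) := by
    apply setIntegral_congr_ae measurableSet_Ioc
    filter_upwards [exL_ae p L l] with x hx hx'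
    rw [hx]
    unfold ex
    rw [indicator_of_mem hx']
    have e1 : ∀ a b c : ℂ, a * (b * (a * c)) = (a * a) * (b * c) := by
      intro a b c
      ring
    rw [e1, ← Complex.ofReal_mul, ← Complex.exp_add, ← mul_inv, h3]
    congr 2
    push_cast
    ring
  rw [h1, integral_const_mul, ← intervalIntegral.integral_of_le (by linarith)]
  by_cases hkl : k = l
  · rw [if_pos hkl, hkl]
    simp only [sub_self, mul_zero, zero_div, Complex.ofReal_zero, zero_mul, Complex.exp_zero]
    rw [intervalIntegral.integral_const, add_sub_cancel_left, Complex.real_smul, mul_one,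
      ← Complex.ofReal_mul, inv_mul_cancel₀ hL.ne', Complex.ofReal_one]
  · rw [if_neg hkl]
    have hc : ((2 * Real.pi * (k - l) / L : ℝ) : ℂ) * Complex.I ≠ 0 := by
      apply mul_ne_zero _ Complex.I_ne_zero
      rw [Complex.ofReal_ne_zero]
      have h5 : ((k : ℝ) - l) ≠ 0 := by
        rw [sub_ne_zero]
        exact_mod_cast hkl
      have := Real.pi_ne_zero
      positivity
    rw [integral_exp_mul_complex hc]
    have h6 : Complex.exp ((((2 * Real.pi * (k - l) / L : ℝ) : ℂ) * Complex.I) * ((p + L : ℝ) : ℂ)) =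
        Complex.exp ((((2 * Real.pi * (k - l) / L : ℝ) : ℂ) * Complex.I) * ((p : ℝ) : ℂ)) := by
      rw [Complex.exp_eq_exp_iff_exists_int]
      refine ⟨k - l, ?_⟩
      have : (L : ℂ) ≠ 0 := by exact_mod_cast hL.ne'
      push_cast
      field_simp
    rw [h6, sub_self, zero_div, mul_zero]

theorem inner_exL_disj {p L p' L' : ℝ} (k l : ℤ)
    (hd : Disjoint (Ioc p (p + L)) (Ioc p' (p' + L'))) :
    inner ℂ (exL p L k) (exL p' L' l) = 0 := by
  rw [L2.inner_def]
  apply integral_eq_zero_of_ae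
  filter_upwards [exL_ae p L k, exL_ae p' L' l] with x h1 h2
  rw [h1, h2]
  unfold ex
  by_cases hx : x ∈ Ioc p (p + L)
  · have : x ∉ Ioc p' (p' + L') := fun h => (Set.disjoint_left.1 hd) hx h
    rw [indicator_of_notMem this, inner_zero_right]
    rfl
  · rw [indicator_of_notMem hx, inner_zero_left]
    rfl

/-- the orthonormal basis attached to a countable partition into intervals -/
theorem exists_basis {S : Type} [Countable S] (p L : S → ℝ) (hL : ∀ s, 0 < L s)
    (hd : ∀ s t, s ≠ t → Disjoint (Ioc (p s) (p s + L s)) (Ioc (p t) (p t + L t)))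
    (hcov : ∀ x : ℝ, x ≠ 0 → ∃ s, x ∈ Ioc (p s) (p s + L s)) :
    ∃ b : HilbertBasis (S × ℤ) ℂ (Lp ℂ 2 (volume : Measure ℝ)),
      ∀ j, b j = exL (p j.1) (L j.1) j.2 := by
  classical
  have hon : Orthonormal ℂ (fun j : S × ℤ => exL (p j.1) (L j.1) j.2) := by
    rw [orthonormal_iff_ite]
    rintro ⟨s, k⟩ ⟨t, l⟩
    by_cases hst : s = t
    · subst hst
      simp only [inner_exL_same (hL s), Prod.mk.injEq, true_and]
    · rw [if_neg (by simp [hst])]
      exact inner_exL_disj k l (hd s t hst)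
  have hbot : (Submodule.span ℂ (Set.range (fun j : S × ℤ => exL (p j.1) (L j.1) j.2)))ᗮ = ⊥ := by
    rw [Submodule.eq_bot_iff]
    intro F hF
    have h1 : ∀ s k, inner ℂ (exL (p s) (L s) k) F = 0 := by
      intro s k
      exact (Submodule.mem_orthogonal _ _).1 hF _ (Submodule.subset_span ⟨(s, k), rfl⟩)
    have h2 : ∀ᵐ x : ℝ, ∀ s, x ∈ Ioc (p s) (p s + L s) → F x = 0 := by
      rw [ae_all_iff]
      intro s
      exact ae_zero_of_inner (hL s) F (h1 s)
    rw [Lp.eq_zero_iff_ae_eq_zero]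
    have h3 : ∀ᵐ x : ℝ, x ≠ 0 := by
      rw [ae_iff]
      simp
    filter_upwards [h2, h3] with x hx hx0
    obtain ⟨s, hs⟩ := hcov x hx0
    exact hx s hs
  refine ⟨HilbertBasis.mkOfOrthogonalEqBot hon hbot, ?_⟩
  intro j
  rw [HilbertBasis.coe_mkOfOrthogonalEqBot]

end

end Pool.Agent.V11212.RW
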