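import Mathlib

/-!
The inverse Fourier transform of an integrable square integrable function.
-/

set_option autoImplicit false

open Filter Topology MeasureTheory FourierTransform SchwartzMap
open scoped ContDiff

namespace Pool.Agent.V11212.RW

noncomputable section

theorem fourierInv_flip {f g : ℝ → ℂ} (hf : Integrable f) (hg : Integrable g) :
    ∫ x, 𝓕⁻ g x * f x = ∫ x, g x * 𝓕⁻ f x := by
  have h := VectorFourier.integral_fourierIntegral_smul_eq_flip (L := innerₗ ℝ)
    (μ := (volume : Measure ℝ)) (ν := (volume : Measure ℝ)) (f := g) (g := fun x => f (-x))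
    Real.continuous_fourierChar continuous_inner hg hf.comp_neg
  have h1 : ∫ x, 𝓕 g x * f (-x) = ∫ x, g x * 𝓕 (fun x => f (-x)) x := by
    simpa [smul_eq_mul] using! h
  have h2 : ∀ x, 𝓕⁻ f x = 𝓕 (fun x => f (-x)) x := by
    intro x
    rw [Real.fourierInv_eq_fourier_comp_neg]
  have h3 : ∀ x, 𝓕⁻ g x = 𝓕 g (-x) := fun x => Real.fourierInv_eq_fourier_neg g x
  simp only [h2, h3]
  rw [← h1]
  have h4 := integral_neg_eq_self (fun x => 𝓕 g x * f (-x)) (volume : Measure ℝ)
  simp only [neg_neg] at h4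
  exact h4

theorem fourierInv_cont {f : ℝ → ℂ} (hf : Integrable f) : Continuous (𝓕⁻ f) := by
  have h3 : 𝓕⁻ f = fun x => 𝓕 f (-x) := by
    funext x
    exact Real.fourierInv_eq_fourier_neg f x
  rw [h3]
  exact (VectorFourier.fourierIntegral_continuous Real.continuous_fourierChar
    continuous_inner hf).comp continuous_neg

theorem fourierInv_ae {f : ℝ → ℂ} (h1 : Integrable f) (h2 : MemLp f 2) :
    (𝓕⁻ (h2.toLp f) : Lp ℂ 2 (volume : Measure ℝ)) =ᵐ[volume] 𝓕⁻ f := by
  apply ae_eq_of_integral_contDiff_smul_eq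
  · exact (Lp.memLp _).locallyIntegrable one_le_two
  · exact (fourierInv_cont h1).locallyIntegrable
  intro g g_smooth g_cpt
  have hg₁ : HasCompactSupport (Complex.ofRealCLM ∘ g) := g_cpt.comp_left rfl
  have hg₂ : ContDiff ℝ ∞ (Complex.ofRealCLM ∘ g) := by fun_prop
  set G : 𝓢(ℝ, ℂ) := hg₁.toSchwartzMap hg₂ with hG
  have hGg : ∀ x, G x = ((g x : ℝ) : ℂ) := fun x => rfl
  have e1 : ∫ x, g x • (𝓕⁻ (h2.toLp f) : Lp ℂ 2 (volume : Measure ℝ)) x =
      (((𝓕⁻ (h2.toLp f) : Lp ℂ 2 (volume : Measure ℝ)) : 𝓢'(ℝ, ℂ))) G := by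
    rw [Lp.toTemperedDistribution_apply]
    apply integral_congr_ae
    filter_upwards with x
    rw [hGg, Complex.real_smul, smul_eq_mul]
  rw [e1, ← Lp.fourierInv_toTemperedDistribution_eq, TemperedDistribution.fourierInv_apply,
    Lp.toTemperedDistribution_apply]
  have e2 : ∫ x, (𝓕⁻ G) x • (h2.toLp f) x = ∫ x, 𝓕⁻ (G : ℝ → ℂ) x * f x := by
    apply integral_congr_ae
    filter_upwards [h2.coeFn_toLp] with x hx
    rw [hx, smul_eq_mul, SchwartzMap.fourierInv_coe]
  rw [e2, fourierInv_flip h1 G.integrable]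
  apply integral_congr_ae
  filter_upwards with x
  rw [hGg, Complex.real_smul]

end

end Pool.Agent.V11212.RW
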