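import Mathlib

/-!
Riesz bases: a triangular perturbation of an orthonormal basis, transport and reindexing.
-/

set_option autoImplicit false
set_option linter.unusedSectionVars false

open Set

namespace Pool.Agent.V11212.RW

/-- `v` is a Riesz basis: the image of an orthonormal basis under a bounded invertible operator -/
def IsRieszBasis {ι H : Type*} [NormedAddCommGroup H] [InnerProductSpace ℂ H] [CompleteSpace H]
    (v : ι → H) : Prop :=
  ∃ (b : HilbertBasis ι ℂ H) (T : H ≃L[ℂ] H), ∀ i, T (b i) = v i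

section

variable {ι κ H : Type*} [NormedAddCommGroup H] [InnerProductSpace ℂ H] [CompleteSpace H]

theorem clm_ext (b : HilbertBasis ι ℂ H) {A B : H →L[ℂ] H} (h : ∀ i, A (b i) = B (b i)) :
    A = B := by
  apply ContinuousLinearMap.ext_on (s := Set.range b)
  · have := b.dense_span
    rw [Submodule.dense_iff_topologicalClosure_eq_top]
    exact this
  · rintro _ ⟨i, rfl⟩
    exact h i

/-- reindexing a Hilbert basis -/
theorem exists_reindex (b : HilbertBasis ι ℂ H) (e : κ ≃ ι) :
    ∃ b' : HilbertBasis κ ℂ H, ∀ k, b' k = b (e k) := by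
  have hon : Orthonormal ℂ (fun k => b (e k)) := b.orthonormal.comp e e.injective
  have hr : Set.range (fun k => b (e k)) = Set.range b := by
    ext x
    constructor
    · rintro ⟨k, rfl⟩
      exact ⟨e k, rfl⟩
    · rintro ⟨i, rfl⟩
      exact ⟨e.symm i, by simp⟩
  refine ⟨HilbertBasis.mk hon ?_, ?_⟩
  · rw [hr, b.dense_span]
  · intro k
    rw [HilbertBasis.coe_mk]

theorem riesz_triangular (b : HilbertBasis ι ℂ H) (J : Set ι) (π : ι ≃ ι)
    (hπ : ∀ j ∈ J, π j ∉ J) (v : ι → H) (hv1 : ∀ j, j ∉ J → v j = b j)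
    (hv2 : ∀ j ∈ J, v j = (((Real.sqrt 2)⁻¹ : ℝ) : ℂ) • (b j + b (π j))) :
    IsRieszBasis v := by
  classical
  -- the permutation operator
  obtain ⟨b', hb'⟩ := exists_reindex b π
  let U : H ≃ₗᵢ[ℂ] H := b.repr.trans b'.repr.symm
  have hU : ∀ j, U (b j) = b (π j) := by
    intro j
    have h1 : U (b j) = b' j := by
      simp only [U, LinearIsometryEquiv.trans_apply]
      rw [HilbertBasis.repr_self, HilbertBasis.repr_symm_single]
    rw [h1, hb']
  -- the projection
  let M : Submodule ℂ H := (Submodule.span ℂ (b '' J)).topologicalClosure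
  have : CompleteSpace M := (Submodule.isClosed_topologicalClosure _).completeSpace_coe
  let P : H →L[ℂ] H := M.starProjection
  have hP1 : ∀ j ∈ J, P (b j) = b j := by
    intro j hj
    apply Submodule.starProjection_eq_self_iff.2
    exact Submodule.le_topologicalClosure _ (Submodule.subset_span ⟨j, hj, rfl⟩)
  have hP2 : ∀ j, j ∉ J → P (b j) = 0 := by
    intro j hj
    have h1 : b j ∈ Mᗮ := by
      rw [Submodule.orthogonal_closure, Submodule.mem_orthogonal]
      intro u hu
      refine Submodule.span_induction (p := fun u _ => inner ℂ u (b j) = 0) ?_ ?_ ?_ ?_ hu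
      · rintro _ ⟨i, hi, rfl⟩
        have hij : i ≠ j := by
          rintro rfl
          exact hj hi
        exact b.orthonormal.2 hij
      · simp
      · intro x y _ _ hx hy
        rw [inner_add_left, hx, hy, add_zero]
      · intro c x _ hx
        rw [inner_smul_left, hx, mul_zero]
    exact (Submodule.starProjection_apply_eq_zero_iff M).2 h1
  obtain ⟨c, hc⟩ : ∃ c : ℂ, c = (((Real.sqrt 2)⁻¹ : ℝ) : ℂ) := ⟨_, rfl⟩
  obtain ⟨r, hr⟩ : ∃ r : ℂ, r = ((Real.sqrt 2 : ℝ) : ℂ) := ⟨_, rfl⟩
  have hcr : c * r = 1 := by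
    rw [hc, hr, ← Complex.ofReal_mul, inv_mul_cancel₀ (by positivity), Complex.ofReal_one]
  let Uc : H →L[ℂ] H := (U.toContinuousLinearEquiv : H →L[ℂ] H)
  have hUc : ∀ j, Uc (b j) = b (π j) := hU
  let T : H →L[ℂ] H := ContinuousLinearMap.id ℂ H + (c - 1) • P + c • (Uc.comp P)
  let S : H →L[ℂ] H := ContinuousLinearMap.id ℂ H + (r - 1) • P - Uc.comp P
  have hT1 : ∀ j, j ∉ J → T (b j) = b j := by
    intro j hj
    simp only [T, add_apply, smul_apply,
      ContinuousLinearMap.comp_apply, ContinuousLinearMap.id_apply, hP2 j hj, smul_zero, map_zero,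
      add_zero]
  have hS1 : ∀ j, j ∉ J → S (b j) = b j := by
    intro j hj
    simp only [S, add_apply, sub_apply,
      smul_apply,
      ContinuousLinearMap.comp_apply, ContinuousLinearMap.id_apply, hP2 j hj, smul_zero, map_zero,
      add_zero, sub_zero]
  have hT2 : ∀ j ∈ J, T (b j) = c • (b j + b (π j)) := by
    intro j hj
    simp only [T, add_apply, smul_apply,
      ContinuousLinearMap.comp_apply, ContinuousLinearMap.id_apply, hP1 j hj, hUc]
    module
  have hS2 : ∀ j ∈ J, S (b j) = r • b j - b (π j) := by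
    intro j hj
    simp only [S, add_apply, sub_apply,
      smul_apply,
      ContinuousLinearMap.comp_apply, ContinuousLinearMap.id_apply, hP1 j hj, hUc]
    module
  have hTS : T.comp S = ContinuousLinearMap.id ℂ H := by
    apply clm_ext b
    intro j
    rw [ContinuousLinearMap.comp_apply, ContinuousLinearMap.id_apply]
    by_cases hj : j ∈ J
    · rw [hS2 j hj, map_sub, map_smul, hT2 j hj, hT1 _ (hπ j hj), smul_smul, mul_comm r c, hcr,
        one_smul, add_sub_cancel_right]
    · rw [hS1 j hj, hT1 j hj]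
  have hST : S.comp T = ContinuousLinearMap.id ℂ H := by
    apply clm_ext b
    intro j
    rw [ContinuousLinearMap.comp_apply, ContinuousLinearMap.id_apply]
    by_cases hj : j ∈ J
    · rw [hT2 j hj, map_smul, map_add, hS2 j hj, hS1 _ (hπ j hj), sub_add_cancel, smul_smul, hcr,
        one_smul]
    · rw [hT1 j hj, hS1 j hj]
  refine ⟨b, ContinuousLinearEquiv.equivOfInverse T S ?_ ?_, ?_⟩
  · intro x
    have := congrArg (fun f => f x) hST
    simpa using this
  · intro x
    have := congrArg (fun f => f x) hTS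
    simpa using this
  · intro j
    rw [ContinuousLinearEquiv.equivOfInverse_apply]
    by_cases hj : j ∈ J
    · rw [hT2 j hj, hv2 j hj, hc]
    · rw [hT1 j hj, hv1 j hj]

theorem IsRieszBasis.map {v : ι → H} (h : IsRieszBasis v) (U : H ≃ₗᵢ[ℂ] H) :
    IsRieszBasis (fun i => U (v i)) := by
  classical
  obtain ⟨b, T, hT⟩ := h
  refine ⟨HilbertBasis.ofRepr (U.symm.trans b.repr),
    (U.symm.toContinuousLinearEquiv.trans T).trans U.toContinuousLinearEquiv, ?_⟩
  intro i
  have h1 : (HilbertBasis.ofRepr (U.symm.trans b.repr)) i = U (b i) := by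
    rw [← HilbertBasis.repr_symm_single]
    show U (b.repr.symm _) = _
    rw [HilbertBasis.repr_symm_single]
  rw [h1]
  show U (T (U.symm (U (b i)))) = _
  rw [U.symm_apply_apply, hT]

theorem IsRieszBasis.reindex {v : ι → H} (h : IsRieszBasis v) (e : ι ≃ κ) :
    IsRieszBasis (fun k => v (e.symm k)) := by
  obtain ⟨b, T, hT⟩ := h
  obtain ⟨b', hb'⟩ := exists_reindex b e.symm
  refine ⟨b', T, ?_⟩
  intro k
  rw [hb', hT]

end

end Pool.Agent.V11212.RW
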