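import Mathlib
import Pool.Agent.V11212.RW.Four
import Pool.Agent.V11212.RW.Basis
import Pool.Agent.V11212.RW.Synth

/-!
The concrete system on `ℝ`.
-/

set_option autoImplicit false

open MeasureTheory Set FourierTransform

namespace Pool.Agent.V11212.RW

noncomputable section

/-- `ψ_{λ,a}(x) = |a|^{1/2} ψ(a x - λ)` -/
def wav (ψ : ℝ → ℂ) (l a : ℝ) (x : ℝ) : ℂ := ((Real.sqrt |a| : ℝ) : ℂ) * ψ (a * x - l)

/-- its Fourier transform when `ψ` has Fourier transform `1_S` -/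
def gf (S : Set ℝ) (l a : ℝ) (x : ℝ) : ℂ :=
  (((Real.sqrt a)⁻¹ : ℝ) : ℂ) * Complex.exp (((-(2 * Real.pi * l * x / a) : ℝ) : ℂ) * Complex.I) *
    S.indicator (fun _ => (1 : ℂ)) (x / a)

theorem wav_eq (S : Set ℝ) (l : ℝ) {a : ℝ} (ha : 0 < a) (x : ℝ) :
    wav (𝓕⁻ (S.indicator (fun _ => (1 : ℂ)))) l a x = 𝓕⁻ (gf S l a) x := by
  rw [wav, Real.fourierInv_eq', Real.fourierInv_eq']
  have h1 := MeasureTheory.Measure.integral_comp_mul_left
    (fun v : ℝ => Complex.exp (((2 * Real.pi * inner ℝ v x : ℝ) : ℂ) * Complex.I) • gf S l a v) a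
  have h2 : ∀ v : ℝ, Complex.exp (((2 * Real.pi * inner ℝ (a * v) x : ℝ) : ℂ) * Complex.I) •
      gf S l a (a * v) = (((Real.sqrt a)⁻¹ : ℝ) : ℂ) *
        (Complex.exp (((2 * Real.pi * inner ℝ v (a * x - l) : ℝ) : ℂ) * Complex.I) •
          S.indicator (fun _ => (1 : ℂ)) v) := by
    intro v
    unfold gf
    rw [mul_div_cancel_left₀ _ ha.ne', smul_eq_mul, smul_eq_mul]
    have e1 : ∀ p q r s : ℂ, p * (q * r * s) = q * ((p * r) * s) := by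
      intro p q r s
      ring
    rw [e1, ← Complex.exp_add]
    congr 3
    simp only [RCLike.inner_apply, conj_trivial]
    push_cast
    have : (a : ℂ) ≠ 0 := by exact_mod_cast ha.ne'
    field_simp
    ring
  simp only [h2] at h1
  rw [integral_const_mul] at h1
  have h3 : |a⁻¹| = a⁻¹ := abs_of_pos (inv_pos.2 ha)
  rw [h3, Complex.real_smul] at h1
  have h4 : (a : ℂ) ≠ 0 := by exact_mod_cast ha.ne'
  have h5 : Real.sqrt a * Real.sqrt a = a := Real.mul_self_sqrt ha.le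
  have h6 : (Real.sqrt a : ℂ) ≠ 0 := by exact_mod_cast (Real.sqrt_pos.2 ha).ne'
  rw [abs_of_pos ha]
  have h7 : (a : ℂ) = (Real.sqrt a : ℂ) * (Real.sqrt a : ℂ) := by
    rw [← Complex.ofReal_mul, h5]
  set I1 := ∫ v, Complex.exp (((2 * Real.pi * inner ℝ v (a * x - l) : ℝ) : ℂ) * Complex.I) •
          S.indicator (fun _ => (1 : ℂ)) v with hI1
  set I2 := ∫ v : ℝ, Complex.exp (((2 * Real.pi * inner ℝ v x : ℝ) : ℂ) * Complex.I) • gf S l a v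
    with hI2
  have h8 : I2 = (a : ℂ) * ((((Real.sqrt a)⁻¹ : ℝ) : ℂ) * I1) := by
    rw [h1]
    push_cast
    field_simp
  rw [h8]
  push_cast
  nth_rewrite 1 [h7]
  field_simp

/-- the parameters of the three translation lattices -/
def cc : Fin 3 → ℝ := ![2, 1, 1]
/-- the three frequency sets -/
def Om : Fin 3 → Set ℝ := ![Ioc 1 2, Ioc 2 3, Ioc (-2) (-1)]
/-- left end points of the intervals of the partition -/
def pp (s : Fin 3 × ℤ) : ℝ := (![3 / 2, 2, -2] : Fin 3 → ℝ) s.1 * 2 ^ s.2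
/-- lengths of the intervals of the partition -/
def Lg (s : Fin 3 × ℤ) : ℝ := (![1 / 2, 1, 1] : Fin 3 → ℝ) s.1 * 2 ^ s.2

theorem Lg_pos (s : Fin 3 × ℤ) : 0 < Lg s := by
  obtain ⟨i, n⟩ := s
  have : (0 : ℝ) < 2 ^ n := by positivity
  unfold Lg
  fin_cases i <;> simp <;> exact this

theorem dyadic_unique {x : ℝ} {n m : ℤ} (h1 : (2 : ℝ) ^ n < x) (h2 : x ≤ 2 ^ (n + 1))
    (h3 : (2 : ℝ) ^ m < x) (h4 : x ≤ 2 ^ (m + 1)) : n = m := by
  have a1 : (2 : ℝ) ^ n < 2 ^ (m + 1) := lt_of_lt_of_le h1 h4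
  have a2 : (2 : ℝ) ^ m < 2 ^ (n + 1) := lt_of_lt_of_le h3 h2
  rw [zpow_lt_zpow_iff_right₀ (by norm_num)] at a1 a2
  omega

theorem mem0 {x : ℝ} {n : ℤ} : x ∈ Ioc (pp (0, n)) (pp (0, n) + Lg (0, n)) ↔
    (3 / 2 * 2 ^ n < x ∧ x ≤ 2 * 2 ^ n) := by
  have h : pp (0, n) + Lg (0, n) = 2 * 2 ^ n := by
    simp only [pp, Lg, Matrix.cons_val_zero]
    ring
  rw [h, mem_Ioc]
  rfl

theorem mem1 {x : ℝ} {n : ℤ} : x ∈ Ioc (pp (1, n)) (pp (1, n) + Lg (1, n)) ↔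
    (2 * 2 ^ n < x ∧ x ≤ 3 * 2 ^ n) := by
  have h : pp (1, n) + Lg (1, n) = 3 * 2 ^ n := by
    simp only [pp, Lg, Matrix.cons_val_one, Matrix.cons_val_zero]
    ring
  rw [h, mem_Ioc]
  rfl

theorem mem2 {x : ℝ} {n : ℤ} : x ∈ Ioc (pp (2, n)) (pp (2, n) + Lg (2, n)) ↔
    (-2 * 2 ^ n < x ∧ x ≤ - 2 ^ n) := by
  have h : pp (2, n) + Lg (2, n) = - 2 ^ n := by
    simp only [pp, Lg, Matrix.cons_val]
    ring
  rw [h, mem_Ioc]
  rfl

theorem zp1 (n : ℤ) : (2 : ℝ) ^ (n + 1) = 2 * 2 ^ n := by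
  rw [zpow_add_one₀ (by norm_num)]
  ring

/-- position of a point of an interval of the partition -/
theorem mem_cases {x : ℝ} {s : Fin 3 × ℤ} (h : x ∈ Ioc (pp s) (pp s + Lg s)) :
    (s.1 = 0 ∧ 2 ^ s.2 < x ∧ x ≤ 2 ^ (s.2 + 1) ∧ 3 / 2 * 2 ^ s.2 < x) ∨
    (s.1 = 1 ∧ 2 ^ (s.2 + 1) < x ∧ x ≤ 2 ^ (s.2 + 1 + 1) ∧ x ≤ 3 / 2 * 2 ^ (s.2 + 1)) ∨
    (s.1 = 2 ∧ 2 ^ s.2 ≤ -x ∧ -x < 2 ^ (s.2 + 1)) := by
  obtain ⟨i, n⟩ := s
  have hp : (0 : ℝ) < 2 ^ n := by positivity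
  fin_cases i
  · left
    have h' := mem0.1 h
    refine ⟨rfl, ?_, ?_, ?_⟩
    · show (2 : ℝ) ^ n < x
      linarith [h'.1]
    · show x ≤ 2 ^ (n + 1)
      rw [zp1]
      exact h'.2
    · exact h'.1
  · right; left
    have h' := mem1.1 h
    refine ⟨rfl, ?_, ?_, ?_⟩
    · show (2 : ℝ) ^ (n + 1) < x
      rw [zp1]
      exact h'.1
    · show x ≤ 2 ^ (n + 1 + 1)
      rw [zp1, zp1]
      linarith [h'.2]
    · show x ≤ 3 / 2 * 2 ^ (n + 1)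
      rw [zp1]
      linarith [h'.2]
  · right; right
    have h' := mem2.1 h
    refine ⟨rfl, ?_, ?_⟩
    · show (2 : ℝ) ^ n ≤ -x
      linarith [h'.2]
    · show -x < 2 ^ (n + 1)
      rw [zp1]
      linarith [h'.1]

theorem part_disj (s t : Fin 3 × ℤ) (hst : s ≠ t) :
    Disjoint (Ioc (pp s) (pp s + Lg s)) (Ioc (pp t) (pp t + Lg t)) := by
  rw [Set.disjoint_left]
  intro x hx hy
  apply hst
  have p1 : (0 : ℝ) < 2 ^ s.2 := by positivity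
  have p2 : (0 : ℝ) < 2 ^ t.2 := by positivity
  have p3 : (0 : ℝ) < 2 ^ (s.2 + 1) := by positivity
  have p4 : (0 : ℝ) < 2 ^ (t.2 + 1) := by positivity
  rcases mem_cases hx with h | h | h <;> rcases mem_cases hy with g | g | g
  · exact Prod.ext (h.1.trans g.1.symm) (dyadic_unique h.2.1 h.2.2.1 g.2.1 g.2.2.1)
  · exfalso
    have := dyadic_unique h.2.1 h.2.2.1 g.2.1 g.2.2.1
    have h1 := h.2.2.2
    rw [this] at h1
    linarith [g.2.2.2]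
  · exfalso
    linarith [h.2.1, g.2.1]
  · exfalso
    have := dyadic_unique h.2.1 h.2.2.1 g.2.1 g.2.2.1
    have h1 := g.2.2.2
    rw [← this] at h1
    linarith [h.2.2.2]
  · have := dyadic_unique h.2.1 h.2.2.1 g.2.1 g.2.2.1
    exact Prod.ext (h.1.trans g.1.symm) (by omega)
  · exfalso
    linarith [h.2.1, g.2.1]
  · exfalso
    linarith [h.2.1, g.2.1]
  · exfalso
    linarith [h.2.1, g.2.1]
  · refine Prod.ext (h.1.trans g.1.symm) ?_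
    have a1 : (2 : ℝ) ^ s.2 < 2 ^ (t.2 + 1) := lt_of_le_of_lt h.2.1 g.2.2
    have a2 : (2 : ℝ) ^ t.2 < 2 ^ (s.2 + 1) := lt_of_le_of_lt g.2.1 h.2.2
    rw [zpow_lt_zpow_iff_right₀ (by norm_num)] at a1 a2
    omega

theorem part_cov (x : ℝ) (hx : x ≠ 0) : ∃ s, x ∈ Ioc (pp s) (pp s + Lg s) := by
  rcases lt_or_gt_of_ne hx with h | h
  · obtain ⟨n, hn⟩ := exists_mem_Ico_zpow (x := -x) (y := (2 : ℝ)) (by linarith) (by norm_num)
    refine ⟨(2, n), mem2.2 ?_⟩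
    rw [mem_Ico, zp1] at hn
    constructor <;> linarith [hn.1, hn.2]
  · obtain ⟨n, hn⟩ := exists_mem_Ioc_zpow (x := x) (y := (2 : ℝ)) h (by norm_num)
    rw [mem_Ioc, zp1] at hn
    by_cases h1 : 3 / 2 * 2 ^ n < x
    · exact ⟨(0, n), mem0.2 ⟨h1, hn.2⟩⟩
    · refine ⟨(1, n - 1), mem1.2 ?_⟩
      have h2 : (2 : ℝ) ^ n = 2 * 2 ^ (n - 1) := by
        rw [← zp1]
        congr 1
        ring
      rw [h2] at hn h1
      constructor
      · exact hn.1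
      · linarith

end

end Pool.Agent.V11212.RW
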