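import Mathlib
import Pool.Agent.V11212.RW.Exa

/-!
The system of wavelets and its Riesz basis property.
-/

set_option autoImplicit false

open MeasureTheory Set FourierTransform

namespace Pool.Agent.V11212.RW

noncomputable section

/-- the index set before reindexing -/
abbrev KK := (Fin 3 × ℤ) × ℤ

/-- the Fourier transform of the wavelet with index `κ` -/
def gk (κ : KK) : ℝ → ℂ := gf (Om κ.1.1) (cc κ.1.1 * κ.2) (2 ^ κ.1.2)

theorem ind_div {u w a x : ℝ} (ha : 0 < a) :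
    (Ioc u w).indicator (fun _ => (1 : ℂ)) (x / a) =
      (Ioc (u * a) (w * a)).indicator (fun _ => (1 : ℂ)) x := by
  by_cases h : x / a ∈ Ioc u w
  · have h' : x ∈ Ioc (u * a) (w * a) := by
      rw [mem_Ioc, lt_div_iff₀ ha, div_le_iff₀ ha] at h
      exact h
    rw [indicator_of_mem h, indicator_of_mem h']
  · have h' : x ∉ Ioc (u * a) (w * a) := by
      rw [mem_Ioc, lt_div_iff₀ ha, div_le_iff₀ ha] at h
      exact h
    rw [indicator_of_notMem h, indicator_of_notMem h']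

theorem ind_mul {u w : ℝ} (f : ℝ → ℂ) (x : ℝ) :
    f x * (Ioc u w).indicator (fun _ => (1 : ℂ)) x = (Ioc u w).indicator f x := by
  by_cases h : x ∈ Ioc u w
  · rw [indicator_of_mem h, indicator_of_mem h, mul_one]
  · rw [indicator_of_notMem h, indicator_of_notMem h, mul_zero]

theorem gk1 (n k : ℤ) : gk ((1, n), k) = ex (pp (1, n)) (Lg (1, n)) k := by
  funext x
  have ha : (0 : ℝ) < 2 ^ n := by positivity
  show gf (Ioc 2 3) ((1 : ℝ) * k) (2 ^ n) x = ex (2 * 2 ^ n) (1 * 2 ^ n) k x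
  unfold gf ex
  rw [ind_div ha, one_mul, one_mul]
  have h3 : (2 : ℝ) * 2 ^ n + 2 ^ n = 3 * 2 ^ n := by ring
  rw [h3]
  exact ind_mul (fun x => (((Real.sqrt (2 ^ n))⁻¹ : ℝ) : ℂ) *
    Complex.exp (((-(2 * Real.pi * k * x / 2 ^ n) : ℝ) : ℂ) * Complex.I)) x

theorem gk2 (n k : ℤ) : gk ((2, n), k) = ex (pp (2, n)) (Lg (2, n)) k := by
  funext x
  have ha : (0 : ℝ) < 2 ^ n := by positivity
  show gf (Ioc (-2) (-1)) ((1 : ℝ) * k) (2 ^ n) x = ex (-2 * 2 ^ n) (1 * 2 ^ n) k x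
  unfold gf ex
  rw [ind_div ha, one_mul, one_mul]
  have h3 : (-2 : ℝ) * 2 ^ n + 2 ^ n = -1 * 2 ^ n := by ring
  rw [h3]
  exact ind_mul (fun x => (((Real.sqrt (2 ^ n))⁻¹ : ℝ) : ℂ) *
    Complex.exp (((-(2 * Real.pi * k * x / 2 ^ n) : ℝ) : ℂ) * Complex.I)) x

theorem gk0 (n k : ℤ) : gk ((0, n), k) = fun x => (((Real.sqrt 2)⁻¹ : ℝ) : ℂ) *
    (ex (pp (0, n)) (Lg (0, n)) k x + ex (pp (1, n - 1)) (Lg (1, n - 1)) k x) := by
  funext x
  have ha : (0 : ℝ) < 2 ^ n := by positivity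
  have h2 : (2 : ℝ) ^ (n - 1) = 2 ^ n / 2 := by
    rw [zpow_sub_one₀ (by norm_num)]
    rfl
  show gf (Ioc 1 2) ((2 : ℝ) * k) (2 ^ n) x = (((Real.sqrt 2)⁻¹ : ℝ) : ℂ) *
    (ex (3 / 2 * 2 ^ n) (1 / 2 * 2 ^ n) k x + ex (2 * 2 ^ (n - 1)) (1 * 2 ^ (n - 1)) k x)
  rw [h2]
  have e1 : (1 / 2 : ℝ) * 2 ^ n = 2 ^ n / 2 := by ring
  have e2 : (1 : ℝ) * (2 ^ n / 2) = 2 ^ n / 2 := by ring
  have e3 : (2 : ℝ) * (2 ^ n / 2) = 2 ^ n := by ring
  rw [e1, e2, e3]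
  unfold gf ex
  rw [ind_div ha]
  obtain ⟨a, hadef⟩ : ∃ a : ℝ, a = 2 ^ n := ⟨_, rfl⟩
  rw [← hadef] at ha ⊢
  have e4 : 3 / 2 * a + a / 2 = 2 * a := by ring
  have e5 : a + a / 2 = 3 / 2 * a := by ring
  rw [e4, e5, one_mul]
  have e6 : (Real.sqrt a)⁻¹ = (Real.sqrt 2)⁻¹ * (Real.sqrt (a / 2))⁻¹ := by
    rw [← mul_inv, ← Real.sqrt_mul (by norm_num)]
    congr 2
    ring
  have e7 : -(2 * Real.pi * (2 * k) * x / a) = -(2 * Real.pi * k * x / (a / 2)) := by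
    field_simp
  rw [e6, e7]
  set f : ℝ → ℂ := fun x => (((Real.sqrt (a / 2))⁻¹ : ℝ) : ℂ) *
    Complex.exp (((-(2 * Real.pi * k * x / (a / 2)) : ℝ) : ℂ) * Complex.I) with hf
  have e8 : ((((Real.sqrt 2)⁻¹ * (Real.sqrt (a / 2))⁻¹ : ℝ)) : ℂ) *
      Complex.exp (((-(2 * Real.pi * k * x / (a / 2)) : ℝ) : ℂ) * Complex.I) =
      (((Real.sqrt 2)⁻¹ : ℝ) : ℂ) * f x := by
    rw [hf]
    push_cast
    ring
  rw [e8, mul_assoc]
  congr 1
  by_cases h1 : x ∈ Ioc a (2 * a)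
  · rw [indicator_of_mem h1, mul_one]
    by_cases h2 : x ≤ 3 / 2 * a
    · rw [indicator_of_notMem (show x ∉ Ioc (3 / 2 * a) (2 * a) from fun h => not_lt.2 h2 h.1),
        indicator_of_mem (show x ∈ Ioc a (3 / 2 * a) from ⟨h1.1, h2⟩), zero_add]
    · push Not at h2
      rw [indicator_of_mem (show x ∈ Ioc (3 / 2 * a) (2 * a) from ⟨h2, h1.2⟩),
        indicator_of_notMem (show x ∉ Ioc a (3 / 2 * a) from fun h => not_lt.2 h.2 h2), add_zero]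
  · rw [indicator_of_notMem h1, mul_zero]
    rw [indicator_of_notMem (show x ∉ Ioc (3 / 2 * a) (2 * a) from
        fun h => h1 ⟨by linarith [h.1], h.2⟩),
      indicator_of_notMem (show x ∉ Ioc a (3 / 2 * a) from
        fun h => h1 ⟨h.1, by linarith [h.2]⟩), add_zero]

theorem gk_memLp (κ : KK) (q : ENNReal) : MemLp (gk κ) q := by
  obtain ⟨⟨i, n⟩, k⟩ := κ
  fin_cases i
  · show MemLp (gk ((0, n), k)) q
    rw [gk0]
    exact ((ex_memLp _ _ k q).add (ex_memLp _ _ k q)).const_mul _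
  · show MemLp (gk ((1, n), k)) q
    rw [gk1]
    exact ex_memLp _ _ k q
  · show MemLp (gk ((2, n), k)) q
    rw [gk2]
    exact ex_memLp _ _ k q

/-- the Fourier transform of the wavelet with index `κ`, in `L²` -/
def GK (κ : KK) : Lp ℂ 2 (volume : Measure ℝ) := (gk_memLp κ 2).toLp _

/-- the pairing of the indices -/
def prf (κ : KK) : KK :=
  if κ.1.1 = 0 then ((1, κ.1.2 - 1), κ.2)
  else if κ.1.1 = 1 then ((0, κ.1.2 + 1), κ.2) else κ

theorem prf_inv : Function.Involutive prf := by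
  rintro ⟨⟨i, n⟩, k⟩
  fin_cases i
  · simp [prf]
  · simp [prf]
  · simp [prf]

theorem GK_riesz : IsRieszBasis GK := by
  obtain ⟨b, hb⟩ := exists_basis pp Lg Lg_pos part_disj part_cov
  apply riesz_triangular b {κ | κ.1.1 = 0} (Function.Involutive.toPerm prf prf_inv)
  · rintro ⟨⟨i, n⟩, k⟩ hi
    have hi' : i = 0 := hi
    subst hi'
    simp [prf]
  · rintro ⟨⟨i, n⟩, k⟩ hi
    rw [hb]
    unfold GK exL
    fin_cases i
    · exact absurd rfl hi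
    · congr 1
      exact gk1 n k
    · congr 1
      exact gk2 n k
  · rintro ⟨⟨i, n⟩, k⟩ hi
    have hi' : i = 0 := hi
    subst hi'
    have h1 : (Function.Involutive.toPerm prf prf_inv) (((0, n), k) : KK) = (((1, n - 1), k) : KK) := by
      simp [prf]
    rw [h1, hb, hb]
    have h2 := gk0 n k
    apply Lp.ext
    filter_upwards [(gk_memLp ((0, n), k) 2).coeFn_toLp, exL_ae (pp (0, n)) (Lg (0, n)) k,
      exL_ae (pp (1, n - 1)) (Lg (1, n - 1)) k,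
      Lp.coeFn_add (exL (pp (0, n)) (Lg (0, n)) k) (exL (pp (1, n - 1)) (Lg (1, n - 1)) k),
      Lp.coeFn_smul ((((Real.sqrt 2)⁻¹ : ℝ) : ℂ))
        (exL (pp (0, n)) (Lg (0, n)) k + exL (pp (1, n - 1)) (Lg (1, n - 1)) k)] with x a1 a2 a3 a4 a5
    unfold GK
    rw [a1, h2, a5, Pi.smul_apply, a4, Pi.add_apply, a2, a3, smul_eq_mul]

/-- the wavelets, indexed by `KK` -/
def VK (κ : KK) : Lp ℂ 2 (volume : Measure ℝ) := 𝓕⁻ (GK κ)

theorem VK_riesz : IsRieszBasis VK :=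
  GK_riesz.map (Lp.fourierTransformₗᵢ ℝ ℂ).symm

theorem VK_ae (κ : KK) : (VK κ : ℝ → ℂ) =ᵐ[volume]
    wav (𝓕⁻ ((Om κ.1.1).indicator (fun _ => (1 : ℂ)))) (cc κ.1.1 * κ.2) (2 ^ κ.1.2) := by
  have h1 := fourierInv_ae (memLp_one_iff_integrable.1 (gk_memLp κ 1)) (gk_memLp κ 2)
  refine h1.trans ?_
  apply Filter.Eventually.of_forall
  intro x
  rw [wav_eq _ _ (by positivity)]
  rfl

theorem VK_not_orth : inner ℂ (VK ((0, 0), 0)) (VK ((1, -1), 0)) ≠ 0 := by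
  have h0 : inner ℂ (VK ((0, 0), 0)) (VK ((1, -1), 0)) =
      inner ℂ (GK ((0, 0), 0)) (GK ((1, -1), 0)) :=
    (Lp.fourierTransformₗᵢ ℝ ℂ).symm.inner_map_map _ _
  rw [h0]
  have h1 : GK ((1, -1), 0) = exL (pp (1, -1)) (Lg (1, -1)) 0 := by
    unfold GK exL
    congr 1
    exact gk1 (-1) 0
  have h2 : GK ((0, 0), 0) = (((Real.sqrt 2)⁻¹ : ℝ) : ℂ) •
      (exL (pp (0, 0)) (Lg (0, 0)) 0 + exL (pp (1, -1)) (Lg (1, -1)) 0) := by
    have h2 := gk0 0 0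
    apply Lp.ext
    filter_upwards [(gk_memLp ((0, 0), 0) 2).coeFn_toLp, exL_ae (pp (0, 0)) (Lg (0, 0)) 0,
      exL_ae (pp (1, -1)) (Lg (1, -1)) 0,
      Lp.coeFn_add (exL (pp (0, 0)) (Lg (0, 0)) 0) (exL (pp (1, -1)) (Lg (1, -1)) 0),
      Lp.coeFn_smul ((((Real.sqrt 2)⁻¹ : ℝ) : ℂ))
        (exL (pp (0, 0)) (Lg (0, 0)) 0 + exL (pp (1, -1)) (Lg (1, -1)) 0)] with x a1 a2 a3 a4 a5
    unfold GK
    rw [a1, h2, a5, Pi.smul_apply, a4, Pi.add_apply, a2, a3, smul_eq_mul]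
    rfl
  rw [h1, h2, inner_smul_left, inner_add_left, inner_exL_disj, inner_exL_same (Lg_pos _), if_pos rfl,
    zero_add, mul_one]
  · rw [Complex.conj_ofReal, Complex.ofReal_ne_zero]
    positivity
  · exact part_disj (0, 0) (1, -1) (by simp)

end

end Pool.Agent.V11212.RW
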